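import Mathlib
import Pool.Agent.Lib.MP_3bedcc_nt.Fam
import Pool.Agent.Lib.MP_3bedcc_nt.Three

namespace Pool.Agent.Results.MP_3bedcc_nt.OddChar

open Polynomial Pool.Agent.Lib.MP_3bedcc_nt

/-- Over every finite field of odd characteristic there are a quadratic irrational `Θ`,
an irreducible `P`, `ε > 0` and `c < 1` such that, for every `n > 1`, the proportion of
`k ∈ {1, …, m}` with `e_{k,n}(Θ) > 1 - ε` is at most `c` for all `m ≥ 2`. -/
theorem result (K : Type) [Field K] [Fintype K] (hK : ringChar K ≠ 2) :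
    ∃ (Θ : LaurentSeries K) (P : K[X]) (ε c : ℝ),
      IsQuadIrr Θ ∧ Irreducible P ∧ 0 < ε ∧ c < 1 ∧
      (∀ k : ℕ, ∃ N l : ℕ, IsPeriod (Θ * emb P ^ k) N l) ∧
      ∀ N l : ℕ → ℕ, (∀ k : ℕ, IsPeriod (Θ * emb P ^ k) (N k) (l k)) →
        ∀ n : ℕ, 1 < n → ∀ m : ℕ, 2 ≤ m →
          (({k : ℕ | 1 - ε < escape (Θ * emb P ^ k) (N k) (l k) n} ∩ Set.Icc 1 m).ncard : ℝ) / m
            ≤ c := by
  classical
  have h2 : (2 : K) ≠ 0 := Ring.two_ne_zero hK
  have hone : ∀ x : LaurentSeries K, emb 1 * x = emb 1 * x + emb 0 := by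
    intro x
    rw [emb_zero, add_zero]
  obtain ⟨g, hg⟩ := IsCyclic.exists_monoid_generator (α := Kˣ)
  have hpow : ∀ x : K, x ≠ 0 → ∃ s : ℕ, x = (g : K) ^ s := by
    intro x hx
    obtain ⟨s, hs⟩ := hg (Units.mk0 x hx)
    exact ⟨s, by simpa using (congrArg Units.val hs).symm⟩
  have hg1 : (g : K) ≠ 1 := by
    intro h
    obtain ⟨s, hs⟩ := hpow (-1) (by simp)
    rw [h, one_pow] at hs
    exact h2 (by linear_combination -hs)
  by_cases hcase : (3 : K) = 0 ∧ (g : K) = -1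
  · obtain ⟨h3, hg2⟩ := hcase
    have hall : ∀ x : K, x = 0 ∨ x = 1 ∨ x = -1 := by
      intro x
      by_cases hx : x = 0
      · exact Or.inl hx
      · obtain ⟨s, hs⟩ := hpow x hx
        rw [hg2] at hs
        exact Or.inr (hs ▸ neg_one_pow_eq_or K s)
    obtain ⟨P⟩ := exists_pair (0 : K) 1 one_ne_zero
    obtain ⟨W, he, hf, hg'⟩ := exists_peak_three h3
    obtain ⟨ε, c, h⟩ := P.main W (P4 K) (by rw [he, natDegree_P4])
      (fun z hz => by rw [he, hf, hg']; exact hom_three h3 z hz) P.x 1 0 1 one_ne_zero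
      one_ne_zero (hone _)
    exact ⟨P.x, P4 K, ε, c, (P.exists_period P.x 1 0 1 one_ne_zero one_ne_zero (hone _)).1,
      irreducible_P4 h3 hall, h⟩
  · have hj : ∃ j : ℕ, (j : K) ≠ 0 ∧ (j : K) + 1 ≠ 0 ∧ 1 + (j : K) * (1 - g) ≠ 0 := by
      by_cases h : (g : K) = 2
      · have h3 : (3 : K) ≠ 0 := fun h3 => hcase ⟨h3, by linear_combination h + h3⟩
        refine ⟨2, by exact_mod_cast h2, ?_, ?_⟩
        · push_cast
          intro h0
          exact h3 (by linear_combination h0)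
        · push_cast
          rw [h]
          norm_num
      · refine ⟨1, by simp, ?_, ?_⟩
        · push_cast
          intro h0
          exact h2 (by linear_combination h0)
        · push_cast
          intro h0
          exact h (by linear_combination -h0)
    obtain ⟨j, hj0, hj1, hj2⟩ := hj
    obtain ⟨s, hs⟩ := hpow _ hj2
    obtain ⟨P⟩ := exists_pair ((g : K) + 1 - 0) ((g : K) * 1) (by simp)
    obtain ⟨W, he, hf, hg'⟩ := exists_peak (g : K) 1 g.ne_zero one_ne_zero hg1 j s hj0 hj1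
      (by rw [div_one]; exact hs)
    obtain ⟨ε, c, h⟩ := P.main W (X - C 0) (by rw [he, natDegree_X_sub_C])
      (fun z hz => by rw [he, hf, hg']; exact hom_linear _ _ _ z hz) P.x 1 0 1 one_ne_zero
      one_ne_zero (hone _)
    exact ⟨P.x, X - C 0, ε, c, (P.exists_period P.x 1 0 1 one_ne_zero one_ne_zero (hone _)).1,
      irreducible_X_sub_C 0, h⟩

end Pool.Agent.Results.MP_3bedcc_nt.OddChar
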