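import Mathlib
import Pool.Agent.Lib.MP_3bedcc_nt.Fam

namespace Pool.Agent.Results.MP_3bedcc_nt.SplitFamily

open Polynomial Pool.Agent.Lib.MP_3bedcc_nt

/-- Let `D = (t - τ + a + b) ^ 2 - 4 a b` and `P = t - τ`. If `1 + j (1 - a / b)` is a power of
`a / b` for some `j` of the prime field other than `0, -1`, then full generic escape of mass along
the powers of `P` fails for every quadratic irrational of the field `K(t)(√D)`. -/
theorem result (K : Type) [Field K] [Fintype K] (a b τ : K) (ha : a ≠ 0) (hb : b ≠ 0)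
    (hab : a ≠ b) (j s : ℕ) (hj0 : (j : K) ≠ 0) (hj1 : (j : K) + 1 ≠ 0)
    (hj : 1 + (j : K) * (1 - a / b) = (a / b) ^ s) :
    (∃ Θ : LaurentSeries K, Θ ^ 2 - emb (X - C τ + C a + C b) * Θ + emb (C (a * b)) = 0) ∧
    ∀ (Θ : LaurentSeries K) (A B G E F : K[X]), A ≠ 0 → E ≠ 0 → F ≠ 0 →
      emb A * Θ ^ 2 + emb B * Θ + emb G = 0 →
      F ^ 2 * (B ^ 2 - 4 * A * G) = E ^ 2 * ((X - C τ + C a + C b) ^ 2 - 4 * C (a * b)) →
      IsQuadIrr Θ ∧ ∃ ε c : ℝ, 0 < ε ∧ c < 1 ∧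
        (∀ k : ℕ, ∃ N l : ℕ, IsPeriod (Θ * emb (X - C τ) ^ k) N l) ∧
        ∀ N l : ℕ → ℕ, (∀ k : ℕ, IsPeriod (Θ * emb (X - C τ) ^ k) (N k) (l k)) →
          ∀ n : ℕ, 1 < n → ∀ m : ℕ, 2 ≤ m →
            (({k : ℕ | 1 - ε < escape (Θ * emb (X - C τ) ^ k) (N k) (l k) n}
              ∩ Set.Icc 1 m).ncard : ℝ) / m ≤ c := by
  have h2 : (2 : K) ≠ 0 := by
    intro h
    rcases Nat.even_or_odd' j with ⟨i, rfl | rfl⟩
    · apply hj0
      push_cast
      linear_combination (i : K) * h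
    · apply hj1
      push_cast
      linear_combination ((i : K) + 1) * h
  have h2X : (2 : K[X]) ≠ 0 := by
    rw [show (2 : K[X]) = C 2 from rfl]
    exact C_ne_zero.mpr h2
  obtain ⟨P⟩ := exists_pair (a + b - τ) (a * b) (mul_ne_zero ha hb)
  obtain ⟨W, he, hf, hg⟩ := exists_peak a b ha hb hab j s hj0 hj1 hj
  have hsum : emb (X - C τ + C a + C b) = P.x + P.y := by
    rw [P.sum, ← emb_X, ← emb_add]
    congr 1
    simp only [map_add, map_sub]
    ring
  refine ⟨⟨P.x, by rw [hsum, ← P.prod]; ring⟩, ?_⟩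
  intro Θ A B G E F hA hE hF hq hd
  have h4 : emb (4 : K[X]) = 4 := by
    rw [show (4 : K[X]) = 2 * 2 by norm_num, emb_mul, emb_two]; norm_num
  have hd2 := congrArg emb hd
  simp only [emb_mul, emb_sub (B ^ 2), emb_sub ((X - C τ + C a + C b) ^ 2), emb_pow, h4] at hd2
  rw [hsum, ← P.prod] at hd2
  have hfac : (emb F * (2 * emb A * Θ + emb B) - emb E * (P.x - P.y))
      * (emb F * (2 * emb A * Θ + emb B) + emb E * (P.x - P.y)) = 0 := by
    linear_combination hd2 + (4 * emb F ^ 2 * emb A) * hq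
  have key : ∃ α β γ : K[X], α ≠ 0 ∧ γ ≠ 0 ∧ emb γ * Θ = emb α * P.x + emb β := by
    have hγ : 2 * A * F ≠ 0 := mul_ne_zero (mul_ne_zero h2X hA) hF
    rcases mul_eq_zero.mp hfac with h | h
    · refine ⟨2 * E, -(E * (X - C τ + C a + C b)) - F * B, 2 * A * F, mul_ne_zero h2X hE, hγ, ?_⟩
      rw [emb_sub, emb_neg]
      simp only [emb_mul, emb_two, hsum]
      linear_combination h
    · refine ⟨-(2 * E), E * (X - C τ + C a + C b) - F * B, 2 * A * F,
        neg_ne_zero.mpr (mul_ne_zero h2X hE), hγ, ?_⟩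
      rw [emb_sub (E * (X - C τ + C a + C b)), emb_neg]
      simp only [emb_mul, emb_two, hsum]
      linear_combination h
  obtain ⟨α, β, γ, hα, hγ, hθ⟩ := key
  refine ⟨(P.exists_period Θ α β γ hα hγ hθ).1, ?_⟩
  apply P.main W (X - C τ) (by rw [he, natDegree_X_sub_C]) _ Θ α β γ hα hγ hθ
  intro z hz
  rw [he, hf, hg]
  exact hom_linear a b τ z hz

end Pool.Agent.Results.MP_3bedcc_nt.SplitFamily
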